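import Pool.Agent.H815.GP.Basic

/-!
# Aspherical manifolds whose fundamental groups contain graph products

Let `L` be a graph with a finite or infinite set `V` of vertices, let `G v` be groups, and let `GProd L G` be their
graph product: the free product of the groups `G v` modulo the commutators of the elements of `G u` and `G v` for
adjacent `u` and `v`. If all the groups `G v` are infinite cyclic this is the right-angled Artin group of `L`. Let `H`
be a subgroup of the graph product which contains an element of infinite order of every vertex group `G v` (`Large L G
H`), for instance a subgroup of finite index, if every `G v` has an element of infinite order, and let `Γ` be a group
with a coarse embedding `H → Γ` (`CoarseEmb H Γ`); for instance, `Γ` contains a copy of `H`, or `Γ` and `H` are finitely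
generated and quasi-isometric, and `Γ` need not be commensurable with the graph product.

Let `M` be an aspherical `n`-manifold, compact or not, with or without boundary, with fundamental group `Γ`. Then `Γ`
acts freely and properly on the universal covering of the interior of `M`, a contractible `n`-manifold `X` without
boundary, and `X × X` is homeomorphic to the euclidean space of dimension `2 n` (Stallings, Siebenmann). So `Γ`
satisfies the condition `Acts n Γ`: it acts properly on a contractible space `X` such that `X × X` has a continuous
injective map to the euclidean space of dimension `2 n`.

We show that for all `i > n / 2` and all finite sets `A` of vertices the reduced homology modulo `2` of the flag complex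
of the full subgraph `L.induce A` vanishes in the degree `i - 1`, and that the `ℓ²`-homology of the Davis complex of the
right-angled Coxeter group of the octahedralization of `L.induce A` vanishes in the degree `i`. (Hence the homology
modulo `2` and the rational homology of the flag complex of `L` vanish in the degree `i - 1`.)

The `L²`-Betti number in the degree `i` of a graph product of infinite amenable groups over a finite graph, and of a
right-angled Artin group of any rank, is the rank of the reduced homology of the flag complex of `L` in the degree `i -
1` (Davis, Leary, Okun). So `b_i (M) = 0` for `i > n / 2` for all aspherical `n`-manifolds `M` whose fundamental group
is commensurable with such a group, or quasi-isometric to such a group (if its vertex groups are not torsion groups), as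
the vanishing of the `i`-th `L²`-Betti number is invariant under coarse equivalences (Gromov; Sauer and Schrödl). The
Davis complex of the group of `oct L` is the universal covering of the Salvetti complex of the right-angled Artin group
of `L` (Davis and Januszkiewicz), so that the last statement says that the reduced `ℓ²`-homology of the right-angled
Artin group of `L.induce A` vanishes in the degree `i`.

Proof. The elements `g v` of infinite order generate a subgroup `K` of `H`, and the retractions of the graph product to
the vertex groups give homomorphisms `φ v` from `K` to the integers such that the value of `φ u` at `g v` is zero if and
only if `u ≠ v` (`GP.tori_gp`). The powers of the elements `g v ^ ε`, where `ε` is a sign, are rays for the vertices of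
the octahedralization of `L.induce A`, and the homomorphisms show that the products of the rays of disjoint cliques
diverge. The coarse embedding maps the products of the rays to elements of `Γ`, indexed by the lattice points of the
cone over the flag complex, whose orbit in `X` is extended over the cone with the contractibility of `X` (`CE.Ray`).
This gives an odd map of the deleted join of the join of the flag complex of the octahedralization with itself to a
sphere of dimension `2 n - 1`, and the obstruction is multiplicative for joins (`CE.Odd`, `CE.Coarse`, `TW.Prod`). So
all symmetric cycles of the deleted join of the octahedralization of degree greater than `n` have evaluation zero. On
the other hand a cycle `z` of `L.induce A` modulo `2` with `i` vertices which is not a boundary gives a symmetric cycle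
with `2 i` vertices and evaluation one, namely the sum of `ψ K • (z_S ⊗ z_T)` over the cliques `K` and the subsets `S`
of `K`, where `T` is the union of `K \ S` and of the set of the common neighbours of `K`, where `z_S` is the copy of `z`
in which the vertices of `S` are replaced by their copies, and where `ψ` is obtained from a cocycle `φ` with `φ z ≠ 0`
(`TW.Psi`, `TW.Sym`, `TW.Uni`, `TW.UniEv`, `TW.Full`).
-/

set_option autoImplicit false

open Pool.Agent.H815.TW Pool.Agent.H815.GP Pool.Agent.H815.CE Pool.Agent.W907.SG

/-- Let `L` be a graph, finite or infinite, let `G v` be groups and let `H` be a subgroup of their graph product which
contains an element of infinite order of every vertex group. Let `Γ` be a group with a coarse embedding `H → Γ` (for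
instance, `Γ` contains a copy of `H` or is quasi-isometric to `H`) which acts properly on a contractible space `X`
with a continuous injective map from `X × X` to the euclidean space of dimension `2 n`, and let `n < 2 i`. Then for
every finite set `A` of vertices the flag complex of `L.induce A` has no reduced homology modulo `2` in the degree `i
- 1`, and there is no nonzero `ℓ²` harmonic `i`-chain on the Davis complex of the right-angled Coxeter group of the
octahedralization of `L.induce A`. -/
theorem Pool.Agent.Results.MP_4f4d9f_gt.GraphProducts.result {V : Type} (L : SimpleGraph V) (G : V → Type)
    [∀ v, Group (G v)] (H : Subgroup (GProd L G)) (hH : Large L G H) (Γ : Type) [Group Γ]
    (hΓ : CoarseEmb H Γ) (n i : ℕ)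
    (ha : Acts n Γ) (hi : n < 2 * i) (A : Set V) [Fintype A] [DecidableEq A] :
    Acy (L.induce A) i ∧ ∀ _ : LinearOrder (A × Bool), L2Van (oct (L.induce A)) i :=
  main L G H hH Γ hΓ n i ha hi A
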