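import Pool.Agent.H815.CE.AR

/-!
# Aspherical manifolds whose fundamental groups are Artin groups

Let `M` be a Coxeter matrix on a finite set `B` of generators (the entry `0` stands for infinity), `Artin M` its Artin
group, `M.Group` its Coxeter group, and `L` its nerve, the simplicial complex whose simplices are the spherical subsets
of `B`, those which generate a finite subgroup of `M.Group`. The kernel of the canonical map `toCox M` from `Artin M`
onto `M.Group` is the pure Artin group. Let `H` be a subgroup of `Artin M` which contains a positive power of every
element of the pure Artin group; for instance, `H` may have finite index in `Artin M` or in the pure Artin group.

Let `Γ` be a group with a coarse embedding `H → Γ` (`CoarseEmb H Γ`); for instance, `Γ` contains a copy of `H`, or `Γ`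
and `H` are finitely generated and quasi-isometric. Suppose that `Γ` acts properly on a contractible space `X` such that
`X × X` has a continuous injective map to the euclidean space of dimension `2 n` (`Acts n Γ`). For instance, `Γ` may be
the fundamental group of an aspherical `n`-manifold `N`, compact or not, with or without boundary: the universal
covering `X` of the interior of `N` is a contractible `n`-manifold without boundary, and `X × X` is homeomorphic to the
euclidean space (Stallings, Siebenmann).

We show that for all `i > n / 2` and for all sets `U` of generators the full subcomplex of `L` with the vertices `U` has
no reduced homology modulo `2` in the degree `i - 1`. By the universal coefficient theorem, it has no reduced rational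
homology in this degree.

If `Artin M` satisfies the `K(π, 1)` conjecture, then its `L²`-Betti number in the degree `i` is the dimension of the
reduced rational homology of `L` in the degree `i - 1` (Davis and Leary). So `b_i (N) = 0` for all `i > n / 2` and all
aspherical `n`-manifolds `N` whose fundamental groups are commensurable with such an Artin group, or quasi-isometric to
it, as the vanishing of the `i`-th `L²`-Betti number is invariant under coarse equivalences (Sauer and Schrödl): the
conjecture of Davis and Okun and the action dimension conjecture hold for all Artin groups which satisfy the `K(π, 1)`
conjecture. This was known in the degree `i - 1 = dim L` (Avramidi, Davis, Okun and Schreve for right-angled Artin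
groups, Davis and Huang in general).

Proof. Call a set of generators irreducible if it is not the union of two nonempty disjoint commuting subsets. For an
irreducible spherical subset `T` let `z_T` be the square of the Garside element of the Artin group of `T`; it is central
there. So `z_T` and `z_U` commute if `T ⊆ U` or `U ⊆ T` or if `T` and `U` commute; let `LO` be the graph of these pairs
(Davis and Huang: the flag complex of `LO` is the complex of standard abelian subgroups, a subdivision of `L`). The
cocycle which counts the crossings of the walls gives homomorphisms from the pure Artin group to the integers, one for
each reflection. The set `T` is the support of some root, as it is irreducible, so that the reflection in this root is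
in the subgroup generated by `U` only if `T ⊆ U`. Hence the matrix of the values of these homomorphisms at the elements
`z_U` is triangular, and there are homomorphisms `φ_T` such that the value of `φ_T` at `z_U` is zero if and only if `T ≠
U` (`AR.Root`, `AR.Gar`, `AR.Tor`). Now the engine of `GraphProducts` (this folder) applies to the powers of the
elements `z_T` which are in `H`, and shows that the flag complex of `LO` has no homology modulo `2` in the degree `i -
1`. Finally, the homology of the nerve is a direct summand of the homology of the flag complex of `LO`, by acyclic
carriers: for `σ` in `L` the subsets of `σ` in `LO` span a cone, with apex a component of `σ`, and a choice of an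
element of each subset gives a simplicial map from the flag complex to `L` (`AR.Car`, `AR.Inj`, `AR.Fin`).
-/

set_option autoImplicit false

open Pool.Agent.H815.TW Pool.Agent.H815.CE Pool.Agent.H815.AR Pool.Agent.Helper741

/-- Let `H` be a subgroup of the Artin group of `M` which contains a positive power of every element of the pure Artin
group, and let `Γ` be a group with a coarse embedding `H → Γ` (for instance, `Γ` contains a copy of `H` or is
quasi-isometric to `H`) which acts properly on a contractible space `X` with a continuous injective map from `X × X`
to the euclidean space of dimension `2 n`, and let `n < 2 i`. Then for every set `U` of generators the complex of the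
spherical subsets of `U` has no reduced homology modulo `2` in the degree `i - 1`. -/
theorem Pool.Agent.Results.MP_4f4d9f_gt.NervesOfArtinGroups.result (B : Type) [Fintype B] [DecidableEq B]
    (M : CoxeterMatrix B) (H : Subgroup (Artin M))
    (hH : ∀ x : Artin M, toCox M x = 1 → ∃ k : ℕ, 0 < k ∧ x ^ k ∈ H)
    (Γ : Type) [Group Γ] (hΓ : CoarseEmb H Γ) (n i : ℕ) (ha : Acts n Γ) (hi : n < 2 * i)
    (U : Finset B) : AcyC (fun T : Finset B => T ⊆ U ∧ Sph M T) i :=
  Pool.Agent.H815.AR.CE.artin_nerve M H hH ⟨Γ, _, ha, hΓ⟩ hi U
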